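import Pool.Agent.Q80.AC.Stm2

/-! Job AC2-DSUP -/

open MeasureTheory Topology Filter
open scoped ENNReal NNReal ComplexConjugate

noncomputable section

namespace Pool.Agent.Q63.AC.DSUP

open Pool.Agent.Q80.AC

theorem t_DSUP (h1 : S_FACONT) (h2 : S_PDBD) (h3 : S_RB) : S_DSUP := by
  intro H _ _ _ _ _ _ _ _ m _ u hu ω hω hpd hω1 ε hε
  obtain ⟨C, hC⟩ := hω
  obtain ⟨hc, -, -⟩ := h1 H m C ω hC
  obtain ⟨-, -, -, hb⟩ := h2 H ω hpd
  obtain ⟨hs, -, hn⟩ := h3 H m u hu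
  have hb1 : ∀ g, ‖ω g - 1‖ ≤ 2 := by
    intro g
    have h := hb g
    rw [hω1, Complex.one_re] at h
    calc ‖ω g - 1‖ ≤ ‖ω g‖ + ‖(1 : ℂ)‖ := norm_sub_le _ _
      _ ≤ 2 := by rw [norm_one]; linarith
  have hW : {g | ‖ω g - 1‖ < ε} ∈ 𝓝 (1 : H) := by
    have h : Tendsto (fun g => ‖ω g - 1‖) (𝓝 1) (𝓝 ‖ω 1 - 1‖) :=
      ((hc.sub continuous_const).norm).tendsto 1
    rw [hω1, sub_self, norm_zero] at h
    exact h.eventually (gt_mem_nhds hε)
  obtain ⟨δ, hδ, hsep⟩ := hu.sep _ hW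
  refine ⟨max 0 (Real.log (2 / ε) / δ), fun t ht g => ?_⟩
  have ht0 : 0 ≤ t := (le_max_left _ _).trans ht
  have ht1 : Real.log (2 / ε) / δ ≤ t := (le_max_right _ _).trans ht
  have hR0 : 0 < Rr u 0 t g := Real.exp_pos _
  have e : ‖ω g * (Rr u 0 t g : ℂ) - (Rr u 0 t g : ℂ)‖ = ‖ω g - 1‖ * Rr u 0 t g := by
    rw [← sub_one_mul, norm_mul, Complex.norm_real, Real.norm_of_nonneg hR0.le]
  rw [e]
  by_cases hg : ‖ω g - 1‖ < ε
  · have hR1 : Rr u 0 t g ≤ 1 := by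
      unfold Rr
      rw [Real.exp_le_one_iff]
      have := mul_nonneg ht0 (hn 0 g)
      linarith
    calc ‖ω g - 1‖ * Rr u 0 t g ≤ ε * 1 := by gcongr
      _ = ε := mul_one _
  · have h4 := hsep g hg
    have h5 : δ ≤ ∑' k, (1 - (u (0 + k) g).re) := by
      simp only [zero_add]
      have := (hs g).le_tsum 0 (fun k _ => by linarith [(hu.real k g).2.2])
      linarith
    have h6 : Rr u 0 t g ≤ ε / 2 := by
      unfold Rr
      have h7 : Real.log (2 / ε) ≤ t * ∑' k, (1 - (u (0 + k) g).re) := by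
        have h8 : Real.log (2 / ε) ≤ t * δ := by rwa [div_le_iff₀ hδ] at ht1
        exact h8.trans (by gcongr)
      calc Real.exp (-(t * ∑' k, (1 - (u (0 + k) g).re))) ≤ Real.exp (-Real.log (2 / ε)) := by
            apply Real.exp_le_exp.2; linarith
        _ = ε / 2 := by
            rw [Real.exp_neg, Real.exp_log (by positivity), inv_div]
    calc ‖ω g - 1‖ * Rr u 0 t g ≤ 2 * (ε / 2) := by
          gcongr
          exact hb1 g
      _ = ε := by ring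

end Pool.Agent.Q63.AC.DSUP
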