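import Pool.Agent.Q80.AC.Stm2

/-! Job AC2-RB -/

open MeasureTheory Topology Filter
open scoped ENNReal NNReal ComplexConjugate

noncomputable section

namespace Pool.Agent.Q63.AC.RB

open Pool.Agent.Q80.AC

variable {H : Type} [Group H] [TopologicalSpace H] [IsTopologicalGroup H] [LocallyCompactSpace H]
  [SecondCountableTopology H] [T2Space H] [MeasurableSpace H] [BorelSpace H] {m : Measure H}
  [m.IsHaarMeasure] {u : ℕ → H → ℂ}

theorem bnd (hu : Good m u) {K : Set H} {N₀ : ℕ}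
    (hN : ∀ k, N₀ ≤ k → ∀ s ∈ K, 1 - (1 / 2 : ℝ) ^ k ≤ (u k s).re) (N n : ℕ) {s : H} (hs : s ∈ K) :
    ‖1 - (u (N + n) s).re‖ ≤ 2 ^ N₀ * (1 / 2 : ℝ) ^ n := by
  have h1 := hu.real (N + n) s
  rw [Real.norm_of_nonneg (by linarith [h1.2.2])]
  by_cases h : N₀ ≤ N + n
  · have h2 := hN (N + n) h s hs
    have h3 : (1 / 2 : ℝ) ^ (N + n) ≤ (1 / 2 : ℝ) ^ n :=
      pow_le_pow_of_le_one (by norm_num) (by norm_num) (by omega)
    have h4 : (1 : ℝ) ≤ 2 ^ N₀ := one_le_pow₀ (by norm_num)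
    have h5 : (1 / 2 : ℝ) ^ n ≤ 2 ^ N₀ * (1 / 2 : ℝ) ^ n :=
      le_mul_of_one_le_left (by positivity) h4
    linarith
  · have h2 : (1 : ℝ) ≤ 2 ^ N₀ * (1 / 2 : ℝ) ^ n := by
      have h3 : (1 / 2 : ℝ) ^ N₀ ≤ (1 / 2 : ℝ) ^ n :=
        pow_le_pow_of_le_one (by norm_num) (by norm_num) (by omega)
      calc (1 : ℝ) = 2 ^ N₀ * (1 / 2 : ℝ) ^ N₀ := by
            rw [← mul_pow]; norm_num
        _ ≤ _ := by gcongr
    linarith [h1.2.1]

theorem sumb (N₀ : ℕ) : Summable fun n : ℕ => (2 : ℝ) ^ N₀ * (1 / 2 : ℝ) ^ n :=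
  (summable_geometric_of_lt_one (by norm_num) (by norm_num)).mul_left _

theorem t_RB : S_RB := by
  intro H _ _ _ _ _ _ _ _ m _ u hu
  refine ⟨fun s => ?_, fun N => ?_, fun N s => ?_⟩
  · obtain ⟨N₀, hN⟩ := hu.loc {s} isCompact_singleton
    refine Summable.of_norm_bounded (sumb N₀) fun n => ?_
    have := bnd hu hN 0 n (Set.mem_singleton s)
    rwa [zero_add] at this
  · rw [continuous_iff_continuousAt]
    intro s
    obtain ⟨K, hK, hKs⟩ := exists_compact_mem_nhds s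
    obtain ⟨N₀, hN⟩ := hu.loc K hK
    have h1 : ContinuousOn (fun s => ∑' k, (1 - (u (N + k) s).re)) K := by
      refine continuousOn_tsum (fun i => ?_) (sumb N₀) fun n x hx => bnd hu hN N n hx
      exact (continuous_const.sub (Complex.continuous_re.comp (hu.cont _))).continuousOn
    exact h1.continuousAt hKs
  · exact tsum_nonneg fun k => by linarith [(hu.real (N + k) s).2.2]

end Pool.Agent.Q63.AC.RB
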