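import Pool.Agent.Q80.AC.Stm2

/-! Job AC2-RFA -/

open MeasureTheory Topology Filter
open scoped ENNReal NNReal ComplexConjugate

noncomputable section

namespace Pool.Agent.Q63.AC.RFA

open Pool.Agent.Q80.AC

theorem hasSum_const {t : ℝ} (ht : 0 < t) :
    HasSum (fun k : ℕ => Real.exp (-((k + 1 : ℕ) * t)) * (Real.exp t - 1)) 1 := by
  have h1 : Real.exp (-t) < 1 := by
    have := Real.exp_lt_exp.2 (show -t < 0 by linarith)
    rwa [Real.exp_zero] at this
  have h2 := hasSum_geometric_of_lt_one (Real.exp_pos (-t)).le h1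
  have h3 := h2.mul_left (Real.exp (-t) * (Real.exp t - 1))
  have e1 : Real.exp (-t) * (Real.exp t - 1) * (1 - Real.exp (-t))⁻¹ = 1 := by
    have h4 : 1 - Real.exp (-t) ≠ 0 := by linarith
    have h5 : Real.exp (-t) * (Real.exp t - 1) = 1 - Real.exp (-t) := by
      rw [mul_sub, ← Real.exp_add]; simp
    rw [h5, mul_inv_cancel₀ h4]
  rw [e1] at h3
  refine h3.congr_fun ?_ |> fun h => h
  intro k
  have : Real.exp (-((k + 1 : ℕ) * t)) = Real.exp (-t) * Real.exp (-t) ^ k := by
    rw [← Real.exp_nat_mul, ← Real.exp_add]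
    congr 1
    push_cast
    ring
  rw [this]
  ring

theorem t_RFA (h1 : S_PDMUL) (h2 : S_PDEXP) (h3 : S_RB) (h4 : S_RPD) (h5 : S_FAID) (h6 : S_FASUM)
    (h7 : S_FACONT) : S_RFA := by
  intro H _ _ _ _ _ _ _ _ m _ u hu t ht
  obtain ⟨hs, hc, hn⟩ := h3 H m u hu
  choose g hgpd hge hgc hg1 using fun k => (h2 H (u k) t (hu.pd k) ht.le).2
  have hu1 : ∀ k s, u k s = ((u k s).re : ℂ) := by
    intro k s
    apply Complex.ext
    · simp
    · simp [(hu.real k s).1]
  have hRc : ∀ N, Continuous fun s => (Rr u N t s : ℂ) := by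
    intro N
    unfold Rr
    exact Complex.continuous_ofReal.comp (Real.continuous_exp.comp ((continuous_const.mul (hc N)).neg))
  have hR1 : ∀ N s, Rr u N t s ≤ 1 := by
    intro N s
    unfold Rr
    rw [Real.exp_le_one_iff]
    have := mul_nonneg ht.le (hn N s)
    linarith
  have hRone : ∀ N, Rr u N t 1 = 1 := by
    intro N
    unfold Rr
    simp [hu.one]
  -- the terms
  have hFA : ∀ k : ℕ, FA m (Real.exp (-((k + 1 : ℕ) * t)) * (Real.exp t - 1)) fun s =>
      ((Real.exp (-((k + 1 : ℕ) * t)) : ℝ) : ℂ) * ((g k s * (Rr u (k + 1) t s : ℂ)) * u k s) := by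
    intro k
    have hpd := h1 H _ _ (hgpd k) (h4 H m u hu (k + 1) t ht.le)
    have hcc : Continuous fun s => g k s * (Rr u (k + 1) t s : ℂ) :=
      (hgc k (hu.cont k)).mul (hRc (k + 1))
    have h8 := h5 H m 1 (u k) _ (hu.fa k) hpd hcc
    have h9 := (h7 H m _ _ h8).2.2 ((Real.exp (-((k + 1 : ℕ) * t)) : ℝ) : ℂ)
    have e1 : (g k 1 * (Rr u (k + 1) t 1 : ℂ)).re = Real.exp t - 1 := by
      rw [hg1 k (hu.one k), hRone, Complex.ofReal_one, mul_one, Complex.ofReal_re]
    rw [e1, one_mul, Complex.norm_real, Real.norm_of_nonneg (Real.exp_pos _).le] at h9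
    exact h9
  have hfin := h6 H m _ _ hFA (hasSum_const ht).summable
  rw [(hasSum_const ht).tsum_eq] at hfin
  have key : ∀ s, HasSum (fun k : ℕ => Real.exp (-((k + 1 : ℕ) * t)) *
      ((Real.exp (t * (u k s).re) - 1) * Rr u (k + 1) t s)) (Rr u 0 t s) := by
    intro s
    have hrec : ∀ k, Rr u k t s = Real.exp (-t) * (Real.exp (t * (u k s).re) * Rr u (k + 1) t s) := by
      intro k
      have hsk : Summable fun j => 1 - (u (k + j) s).re := by
        have := (summable_nat_add_iff k).2 (hs s)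
        refine this.congr fun j => ?_
        rw [Nat.add_comm j k]
      unfold Rr
      rw [hsk.tsum_eq_zero_add, ← Real.exp_add, ← Real.exp_add]
      congr 1
      have e : ∑' j, (1 - (u (k + (j + 1)) s).re) = ∑' j, (1 - (u (k + 1 + j) s).re) :=
        tsum_congr fun j => by rw [show k + (j + 1) = k + 1 + j by ring]
      rw [e, add_zero]
      ring
    have hpart : ∀ M : ℕ, ∑ k ∈ Finset.range M, Real.exp (-((k + 1 : ℕ) * t)) *
        ((Real.exp (t * (u k s).re) - 1) * Rr u (k + 1) t s) =
        Rr u 0 t s - Real.exp (-(M * t)) * Rr u M t s := by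
      intro M
      induction M with
      | zero => simp
      | succ M ih =>
        rw [Finset.sum_range_succ, ih]
        have e1 : Real.exp (-(M * t)) * Real.exp (-t) = Real.exp (-((M + 1 : ℕ) * t)) := by
          rw [← Real.exp_add]
          congr 1
          push_cast
          ring
        rw [hrec M, ← e1]
        ring
    rw [hasSum_iff_tendsto_nat_of_nonneg]
    · simp_rw [hpart]
      have hz : Tendsto (fun M : ℕ => Real.exp (-(M * t)) * Rr u M t s) atTop (𝓝 0) := by
        have h10 : Tendsto (fun M : ℕ => Real.exp (-(M * t))) atTop (𝓝 0) := by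
          refine Real.tendsto_exp_neg_atTop_nhds_zero.comp ?_
          exact tendsto_natCast_atTop_atTop.atTop_mul_const ht
        refine squeeze_zero (fun M => ?_) (fun M => ?_) h10
        · exact mul_nonneg (Real.exp_pos _).le (Real.exp_pos _).le
        · exact mul_le_of_le_one_right (Real.exp_pos _).le (hR1 M s)
      simpa using tendsto_const_nhds.sub hz
    · intro k
      have h11 : 1 ≤ Real.exp (t * (u k s).re) :=
        Real.one_le_exp (mul_nonneg ht.le (hu.real k s).2.1)
      have h12 : 0 ≤ Rr u (k + 1) t s := (Real.exp_pos _).le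
      exact mul_nonneg (Real.exp_pos _).le (mul_nonneg (by linarith) h12)
  have e : (fun s => (Rr u 0 t s : ℂ)) = fun s => ∑' k : ℕ,
      ((Real.exp (-((k + 1 : ℕ) * t)) : ℝ) : ℂ) * ((g k s * (Rr u (k + 1) t s : ℂ)) * u k s) := by
    funext s
    have h13 := Complex.hasSum_ofReal.2 (key s)
    rw [← h13.tsum_eq]
    refine tsum_congr fun k => ?_
    have h14 := hge k s
    have h15 : (g k s * (Rr u (k + 1) t s : ℂ)) * u k s =
        (Complex.exp (t * u k s) - 1) * (Rr u (k + 1) t s : ℂ) := by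
      rw [h14]; ring
    rw [h15]
    have h16 : Complex.exp (t * u k s) = ((Real.exp (t * (u k s).re) : ℝ) : ℂ) := by
      rw [Complex.ofReal_exp, Complex.ofReal_mul, ← hu1 k s]
    rw [h16]
    push_cast
    ring
  rw [e]
  exact hfin

end Pool.Agent.Q63.AC.RFA
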