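import Pool.Agent.Q80.AC.Stm2

/-! Job AC2-RPD -/

open MeasureTheory Topology Filter
open scoped ENNReal NNReal ComplexConjugate

noncomputable section

namespace Pool.Agent.Q63.AC.RPD

open Pool.Agent.Q80.AC

theorem t_RPD (h1 : S_PDMUL) (h2 : S_PDLIM) (h3 : S_PDEXP) (h4 : S_RB) : S_RPD := by
  intro H _ _ _ _ _ _ _ _ m _ u hu N t ht
  obtain ⟨hs, hc, hn⟩ := h4 H m u hu
  have hsN : ∀ s, Summable fun k => 1 - (u (N + k) s).re := by
    intro s
    have := (summable_nat_add_iff N).2 (hs s)
    simpa [add_comm] using this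
  refine (h2 H).2.2.2 (fun M s => ∏ k ∈ Finset.range M, Complex.exp (t * (u (N + k) s - 1))) _ ?_ ?_
  · intro M
    induction M with
    | zero =>
      simp only [Finset.range_zero, Finset.prod_empty]
      exact (h2 H).1
    | succ M ih =>
      simp only [Finset.prod_range_succ]
      exact h1 H _ _ ih (h3 H (u (N + M)) t (hu.pd _) ht).1
  · intro s
    have e1 : ∀ M, ∏ k ∈ Finset.range M, Complex.exp (t * (u (N + k) s - 1)) =
        ((Real.exp (-(t * ∑ k ∈ Finset.range M, (1 - (u (N + k) s).re))) : ℝ) : ℂ) := by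
      intro M
      rw [← Complex.exp_sum, Complex.ofReal_exp]
      congr 1
      rw [Finset.mul_sum, ← Finset.sum_neg_distrib, Complex.ofReal_sum]
      refine Finset.sum_congr rfl fun k _ => ?_
      have e2 : u (N + k) s = ((u (N + k) s).re : ℂ) := by
        apply Complex.ext
        · simp
        · simp [(hu.real (N + k) s).1]
      rw [e2]
      push_cast
      simp only [Complex.ofReal_re]
      ring
    simp_rw [e1]
    refine (Complex.continuous_ofReal.tendsto _).comp ?_
    refine (Real.continuous_exp.tendsto _).comp ?_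
    exact ((hsN s).hasSum.tendsto_sum_nat.const_mul t).neg

end Pool.Agent.Q63.AC.RPD
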